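import Pool.Agent.H354.BG.Stm

set_option autoImplicit false

/-! Project BG, task VAL: the value map. -/

namespace Pool.Agent.H727.BG.VAL

open Pool.Agent.H354.BG
open Pool.Agent.H482R3.EA (W inv ev PP xx evF cond1 cond2 Syl gOf Sys St Near InD Adm Act)
open Pool.Agent.H482R3.EB (tot wp alt rels AR gR TR Tame Symm alt_length)

variable (D : Dat) (U : Finset (Fin D.r)) (b : Fin D.r)

/-- the homomorphisms of the line groups -/
noncomputable def phi : (l : Ln D U b) → LG D U b l →* D.A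
  | .inl g => ((MulAut.conj (rho D U g.out)).toMonoidHom.comp (par D {b}).subtype :
      par D {b} →* D.A)
  | .inr q => (FreeGroup.lift (fun r : Fin (kk D q.1.1.1 q.1.1.2) =>
      rho D U q.2.out * gR D.m q.1.1.2 ^ (r : ℕ) * gR D.m q.1.1.1 *
        gR D.m q.1.1.2 ^ (-((r : ℕ) : ℤ)) * (rho D U q.2.out)⁻¹) :
      FreeGroup (Fin (kk D q.1.1.1 q.1.1.2)) →* D.A)

theorem phi_inl (g : D.A ⧸ H0 D U b) (y : par D {b}) :
    phi D U b (.inl g) y = rho D U g.out * y.1 * (rho D U g.out)⁻¹ := rfl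

theorem phi_inr (q : Σ i : LI D U b, D.A ⧸ Hw D U b i.1.2)
    (y : FreeGroup (Fin (kk D q.1.1.1 q.1.1.2))) :
    phi D U b (.inr q) y = FreeGroup.lift (fun r : Fin (kk D q.1.1.1 q.1.1.2) =>
      rho D U q.2.out * gR D.m q.1.1.2 ^ (r : ℕ) * gR D.m q.1.1.1 *
        gR D.m q.1.1.2 ^ (-((r : ℕ) : ℤ)) * (rho D U q.2.out)⁻¹) y := rfl

/-- the element of a point -/
noncomputable def Xp (p : Pt D U b) : D.A :=
  rho D U p.1.out * gR D.m p.2.1 * (rho D U p.1.out)⁻¹

theorem out_eq (g : D.A) : ∃ h ∈ H0 D U b,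
    (QuotientGroup.mk g : D.A ⧸ H0 D U b).out = g * h := by
  obtain ⟨h, hh⟩ := QuotientGroup.mk_out_eq_mul (H0 D U b) g
  exact ⟨h.1, h.2, hh⟩

theorem out_eqw (w : Fin D.n) (g : D.A) : ∃ h ∈ Hw D U b w,
    (QuotientGroup.mk g : D.A ⧸ Hw D U b w).out = g * h := by
  obtain ⟨h, hh⟩ := QuotientGroup.mk_out_eq_mul (Hw D U b w) g
  exact ⟨h.1, h.2, hh⟩

theorem conj_comm {G : Type} [Group G] (a y z : G) (h : Commute y z) :
    (a * z) * y * (a * z)⁻¹ = a * y * a⁻¹ := by
  have h1 : z * y = y * z := h.eq.symm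
  calc (a * z) * y * (a * z)⁻¹ = a * (z * y) * z⁻¹ * a⁻¹ := by group
    _ = a * (y * z) * z⁻¹ * a⁻¹ := by rw [h1]
    _ = a * y * a⁻¹ := by group

theorem gen {G : Type} [Group G] (a t u v : G) (h1 : t * u = u * t) (h2 : u * v = v * u) :
    a * (t * u) * t⁻¹ * v * t * (a * (t * u))⁻¹ = a * v * a⁻¹ := by
  rw [h1]
  calc a * (u * t) * t⁻¹ * v * t * (a * (u * t))⁻¹ = a * (u * v) * u⁻¹ * a⁻¹ := by group
    _ = a * (v * u) * u⁻¹ * a⁻¹ := by rw [h2]
    _ = a * v * a⁻¹ := by group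

theorem conj_out (g y : D.A) (hy : y ∈ par D {b}) :
    rho D U (QuotientGroup.mk g : D.A ⧸ H0 D U b).out * y *
      (rho D U (QuotientGroup.mk g : D.A ⧸ H0 D U b).out)⁻¹ =
      rho D U g * y * (rho D U g)⁻¹ := by
  obtain ⟨h, hh, he⟩ := out_eq D U b g
  rw [he, map_mul]
  exact conj_comm _ _ _ (comm_b D hy ((mem_H0 D U b).mp hh))

theorem phi_x (l : Ln D U b) (p : Pt D U b) (hp : Ix D U b p l) :
    phi D U b l (xl D U b l p) = Xp D U b p := by
  obtain ⟨p1, v, hv⟩ := p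
  have hvb : gR D.m v ∈ par D {b} := gR_mem_par D (by rw [hv]; exact Finset.mem_singleton_self b)
  rcases l with g | q
  · have hp' : p1 = g := hp
    subst hp'
    show rho D U p1.out * rho D {b} (gR D.m v) * (rho D U p1.out)⁻¹ =
      rho D U p1.out * gR D.m v * (rho D U p1.out)⁻¹
    rw [rho_of_par D hvb]
  · obtain ⟨⟨⟨v', w⟩, hok⟩, c⟩ := q
    obtain ⟨hp1, g, hg1, hg2⟩ : v = v' ∧ ∃ g : D.A, p1 = QuotientGroup.mk g ∧
      c = QuotientGroup.mk g := hp
    subst hp1
    subst hg1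
    subst hg2
    obtain ⟨h, hh, he⟩ := out_eq D U b g
    obtain ⟨k, hk, hke⟩ := out_eqw D U b w g
    have hk' := hk
    rw [mem_Hw] at hk'
    obtain ⟨i, u, hu, hki⟩ := hk'
    have hwU : D.β w ∈ U := hok.2.1
    have hegk : eg D (D.β w) k = i := by
      have h1 := eg_rho D (D.β w) U k
      rw [if_pos hwU, hki, eg_mul, eg_gR_zpow,
        eg_par D (b_notMem_pZ D (pZ D U b) (D.β w)) hu, add_zero] at h1
      exact h1.symm
    have heg : eg D (D.β w) (((QuotientGroup.mk g : D.A ⧸ Hw D U b w).out)⁻¹ *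
        (QuotientGroup.mk g : D.A ⧸ H0 D U b).out) = -i := by
      rw [he, hke, eg_mul, eg_inv, eg_mul, eg_mul, eg_H0 D U b hok hh, hegk]
      ring
    have hkk : 0 < kk D v w := lt_of_lt_of_le (by norm_num) (kk_spec D hok).1
    have hX := Pool.Agent.H482R3.EB.Asm.xh D.A inferInstance (gR D.m v) (gR D.m w)
      (rho D U (QuotientGroup.mk g : D.A ⧸ Hw D U b w).out) (kk D v w) hkk
      (cross_rel D hok) (-i)
    show phi D U b (.inr ⟨⟨(v, w), hok⟩, QuotientGroup.mk g⟩)
      (xx (kk D v w) (eg D (D.β w) (((QuotientGroup.mk g : D.A ⧸ Hw D U b w).out)⁻¹ *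
        (QuotientGroup.mk g : D.A ⧸ H0 D U b).out))) =
      rho D U (QuotientGroup.mk g : D.A ⧸ H0 D U b).out * gR D.m v *
        (rho D U (QuotientGroup.mk g : D.A ⧸ H0 D U b).out)⁻¹
    rw [conj_out D U b g _ hvb, heg, phi_inr]
    refine hX.trans ?_
    rw [hke, map_mul, hki]
    have c1 : Commute (gR D.m v) u :=
      comm_b D hvb (par_mono D (pZ_sub D (pZ D U b) (D.β w)) hu)
    have c2 : Commute (gR D.m w) u := comm_pZ D (pZ D U b) w u hu
    rw [neg_neg, zpow_neg]
    exact gen _ _ _ _ (c2.zpow_left i).eq c1.eq.symm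

theorem rho_insert_lt (hb : b ∉ U) (a : Fin D.n × Bool) :
    rho D {b} (lt D a) * rho D U (lt D a) = rho D (insert b U) (lt D a) := by
  rw [rho_lt, rho_lt, rho_lt]
  by_cases h1 : D.β a.1 = b
  · have h2 : D.β a.1 ∉ U := by rw [h1]; exact hb
    rw [if_pos (by rw [h1]; exact Finset.mem_singleton_self b), if_neg h2,
      if_pos (by rw [h1]; exact Finset.mem_insert_self b U), mul_one]
  · rw [if_neg (by rw [Finset.mem_singleton]; exact h1), one_mul]
    by_cases h2 : D.β a.1 ∈ U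
    · rw [if_pos h2, if_pos (Finset.mem_insert_of_mem h2)]
    · rw [if_neg h2, if_neg (by
        rw [Finset.mem_insert]
        rintro (h | h)
        · exact h1 h
        · exact h2 h)]

/-- VAL -/
theorem t_VALX : S_VALX := by
  intro D U b hb h A
  obtain ⟨v, hv1, hv2⟩ := A.val D.A (phi D U b) (Xp D U b) (phi_x D U b)
  refine ⟨fun x => v x.1 * rho D U x.2, by
    show v A.one * rho D U 1 = 1
    rw [hv1, map_one, mul_one], ?_⟩
  have hcompl : ∀ g : D.A, rho D U (rho D {b}ᶜ g) = rho D U g := by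
    intro g
    apply rho_rho_sub
    intro c hc
    rw [Finset.mem_compl, Finset.mem_singleton]
    rintro rfl
    exact hb hc
  have hstep : ∀ (x : A.Ω × D.A) (a : Fin D.n × Bool),
      v (stepX D U b h A x a).1 * rho D U (stepX D U b h A x a).2 =
        v x.1 * rho D U x.2 * rho D (insert b U) (lt D a) := by
    rintro ⟨ω, g⟩ a
    have e1 : v (A.act ω (Sum.inl (QuotientGroup.mk g) : Ln D U b)
        (rhoP D b (lt D a) : par D {b})) =
        v ω * (rho D U g * rho D {b} (lt D a) * (rho D U g)⁻¹) := by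
      rw [← conj_out D U b g _ (rho_mem D {b} (lt D a))]
      exact hv2 ω (Sum.inl (QuotientGroup.mk g) : Ln D U b) (rhoP D b (lt D a) : par D {b})
    show v (A.act ω (Sum.inl (QuotientGroup.mk g) : Ln D U b)
        (rhoP D b (lt D a) : par D {b})) * rho D U (g * rho D {b}ᶜ (lt D a)) =
      v ω * rho D U g * rho D (insert b U) (lt D a)
    rw [e1, map_mul, hcompl, ← rho_insert_lt D U b hb a]
    group
  intro u
  induction u with
  | nil =>
    intro x
    show v x.1 * rho D U x.2 = v x.1 * rho D U x.2 * rho D (insert b U) (gEl D [])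
    rw [gEl_nil, map_one, mul_one]
  | cons a u ih =>
    intro x
    have h1 := ih (stepX D U b h A x a)
    have h2 : runX D U b h A (a :: u) x = runX D U b h A u (stepX D U b h A x a) := rfl
    rw [h2]
    refine h1.trans ?_
    show v (stepX D U b h A x a).1 * rho D U (stepX D U b h A x a).2 *
      rho D (insert b U) (gEl D u) = _
    rw [hstep, gEl_cons, map_mul, mul_assoc]

end Pool.Agent.H727.BG.VAL
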